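import Pool.Agent.helper56.P2B.SpecP
import Pool.Agent.helper1.P2.FRX

/-!
# p2b: CVX: limits of domains exist (helper77)
-/

set_option autoImplicit false

open Complex Metric Set Filter Topology MeasureTheory
open Pool.Agent.helper98.ILF
open WP (it)
open HY (UD T S hd UN RM)
open PM
open PL (TP LO PZ GJ INR PG DK ht tr DI CY SUBH hG hq BJ)
open P2 (SS FLS FL CLS FR TL)

noncomputable section

namespace P2B

theorem CVX (hTDF : TDF_stmt) (hK : V3.KO2_stmt) : CVX_stmt := by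
  intro V Ω hV hΩ
  have hF : ∀ l, RM (Ω l) 0 (rm (Ω l) 0) := fun l => ((hTDF _ (hΩ l).1).2.2 0 (hΩ l).2.1).1
  have h1 : ∀ l, ‖deriv (rm (Ω l) 0) 0‖ = 1 := fun l => (hΩ l).2.2
  obtain ⟨χ, a1, a2, a3, a4, a5⟩ := P2.FRX_lim hK V (fun l => rm (Ω l) 0) (fun l => (hF l).dif)
    (fun l => (hF l).inj) (fun l => (hF l).val) h1
  exact ⟨fun l => rm (Ω l) 0, χ, ⟨hV, hF, h1, a1, a2, a3, a4, a5⟩⟩

end P2B
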