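import Pool.Agent.helper56.P2B.SpecP

/-!
# p2b: GRH: half turns escape (helper77)
-/

set_option autoImplicit false

open Complex Metric Set Filter Topology MeasureTheory
open Pool.Agent.helper98.ILF
open WP (it)
open HY (UD T S hd UN RM)
open PM
open PL (TP LO PZ GJ INR PG DK ht tr DI CY SUBH hG hq BJ)
open P2 (SS FLS FL CLS FR TL)

noncomputable section

namespace P2B

lemma GRH_ht (p ζ : ℂ) : ht p ζ = 2 * p - ζ := rfl

lemma GRH_tr (b ζ : ℂ) : tr b ζ = ζ + b := rfl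

/-- conjugation of a half turn by an affine map. -/
lemma GRH_conj (θ : Equiv.Perm ℂ) (t : ℝ) (s : ℂ) (hθ : ∀ ζ : ℂ, θ ζ = (t : ℂ) * ζ + s) (p : ℂ) :
    θ * ht p * θ⁻¹ = ht ((t : ℂ) * p + s) := by
  ext ζ
  obtain ⟨w, rfl⟩ := θ.surjective ζ
  have h1 : θ⁻¹ (θ w) = w := θ.symm_apply_apply w
  rw [Equiv.Perm.mul_apply, Equiv.Perm.mul_apply, h1, GRH_ht, GRH_ht, hθ, hθ]
  ring

theorem GRH (hCVA : CVA_stmt) (hCVI : CVI_stmt) (hHTP : HTP_stmt) (hGRT : GRT_stmt) : GRH_stmt := by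
  intro V Ω φ χ G c₁ θ t s t₀ s₀ hNS p p₀ hp hpl hz
  obtain ⟨hRM, hDD, hcr, hSo, h0S, hΩ, hcomp⟩ := hCVA V Ω φ χ hNS.cv
  obtain ⟨z₁, hz₁, hz₂⟩ := hz
  -- the half turn about `p₀` preserves the limit domain
  have hpos : ∀ ζ ∈ χ '' UD, 2 * p₀ - ζ ∈ χ '' UD := by
    have h := hCVI V Ω φ χ hNS.cv (fun _ => -1) (fun l => 2 * p l) (-1) (2 * p₀) tendsto_const_nhds
      (hpl.const_mul 2) ?_ ⟨z₁, hz₁, ?_⟩
    · intro ζ hζ
      have h2 := h ζ hζ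
      have e : ((-1 : ℝ) : ℂ) * ζ + 2 * p₀ = 2 * p₀ - ζ := by push_cast; ring
      rwa [e] at h2
    · filter_upwards [hp] with l hl ζ hζ
      have h2 : ht (p l) ζ ∈ Ω l := (hl.2.1 ζ).2 hζ
      rw [GRH_ht] at h2
      have e : ((-1 : ℝ) : ℂ) * ζ + 2 * p l = 2 * p l - ζ := by push_cast; ring
      rw [e]
      exact h2
    · have e : ((-1 : ℝ) : ℂ) * z₁ + 2 * p₀ = 2 * p₀ - z₁ := by push_cast; ring
      rw [e]
      exact hz₂
  have hpS : p₀ ∈ χ '' UD := by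
    refine hHTP (χ '' UD) hDD ⟨0, h0S⟩ p₀ ?_
    intro ζ
    constructor
    · intro h
      have h2 := hpos _ h
      have e : 2 * p₀ - (2 * p₀ - ζ) = ζ := by ring
      rwa [e] at h2
    · exact hpos ζ
  have hfix : (t₀ : ℂ) * p₀ + s₀ ≠ p₀ := hNS.fix p₀ hpS
  have ht0 : t₀ ≠ 0 := by
    intro h
    have h2 := hNS.t1
    rw [h] at h2
    norm_num at h2
  have ht0c : (t₀ : ℂ) ≠ 0 := by exact_mod_cast ht0
  -- the half turn about `θ p₀` preserves the limit domain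
  have hqpos : ∀ ζ ∈ χ '' UD, 2 * ((t₀ : ℂ) * p₀ + s₀) - ζ ∈ χ '' UD := by
    intro ζ hζ
    have e1 : (t₀ : ℂ) * ((ζ - s₀) / t₀) + s₀ = ζ := by field_simp; ring
    have h1 : (ζ - s₀) / t₀ ∈ χ '' UD := by
      rw [← hNS.inv, e1]
      exact hζ
    have h2 := hpos _ h1
    have h3 := (hNS.inv _).2 h2
    have e2 : (t₀ : ℂ) * (2 * p₀ - (ζ - s₀) / t₀) + s₀ = 2 * ((t₀ : ℂ) * p₀ + s₀) - ζ := by
      field_simp; ring
    rwa [e2] at h3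
  have htc : Tendsto (fun l => ((t l : ℝ) : ℂ)) V (𝓝 ((t₀ : ℝ) : ℂ)) :=
    (Complex.continuous_ofReal.tendsto t₀).comp hNS.tl
  have hq : Tendsto (fun l => (t l : ℂ) * p l + s l) V (𝓝 ((t₀ : ℂ) * p₀ + s₀)) := (htc.mul hpl).add hNS.sl
  have h2q : (2 : ℂ) * ((t₀ : ℂ) * p₀ + s₀) ∈ χ '' UD := by
    have := hqpos 0 h0S
    rwa [sub_zero] at this
  obtain ⟨r, hr, hball⟩ := Metric.isOpen_iff.1 hSo _ h2q
  have hcb : closedBall ((2 : ℂ) * ((t₀ : ℂ) * p₀ + s₀)) (r / 2) ⊆ χ '' UD :=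
    (closedBall_subset_ball (by linarith)).trans hball
  have hev1 := hcomp _ hcb (isCompact_closedBall _ _)
  have hev2 : ∀ᶠ l in (V : Filter ℕ), 2 * ((t l : ℂ) * p l + s l) ∈ closedBall ((2 : ℂ) * ((t₀ : ℂ) * p₀ + s₀)) (r / 2) :=
    (hq.const_mul 2).eventually (closedBall_mem_nhds _ (by positivity))
  have htr : ∀ᶠ l in (V : Filter ℕ), tr (2 * ((t l : ℂ) * p l + s l) - 2 * p l) ∈ DK (Ω l) (G l) := by
    filter_upwards [hev1, hev2, hp] with l h1 h2 h3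
    have h4 : 2 * ((t l : ℂ) * p l + s l) ∈ Ω l := h1 h2
    have h5 : θ l * ht (p l) * (θ l)⁻¹ ∈ DK (Ω l) (G l) := by
      refine hNS.nm l (ht (p l)) h3 0 (hΩ l).2.1 ?_
      have e : θ l (ht (p l) ((θ l)⁻¹ 0)) = (θ l * ht (p l) * (θ l)⁻¹) 0 := rfl
      rw [e, GRH_conj (θ l) (t l) (s l) (hNS.th l) (p l), GRH_ht, sub_zero]
      exact h4
    rw [GRH_conj (θ l) (t l) (s l) (hNS.th l) (p l)] at h5
    have h6 := (DK (Ω l) (G l)).mul_mem h5 h3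
    have e : ht ((t l : ℂ) * p l + s l) * ht (p l) = tr (2 * ((t l : ℂ) * p l + s l) - 2 * p l) := by
      ext ζ
      rw [Equiv.Perm.mul_apply, GRH_ht, GRH_ht, GRH_tr]
      ring
    rwa [e] at h6
  have he : Tendsto (fun l => 2 * ((t l : ℂ) * p l + s l) - 2 * p l) V (𝓝 (2 * ((t₀ : ℂ) * p₀ + s₀) - 2 * p₀)) :=
    (hq.const_mul 2).sub (hpl.const_mul 2)
  have h2p : 2 * p₀ ∈ χ '' UD := by
    have := hpos 0 h0S
    rwa [sub_zero] at this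
  have hfin := hGRT V Ω φ χ G c₁ θ t s t₀ s₀ hNS _ _ htr he ⟨0, h0S, by rw [zero_add]; exact hqpos _ h2p⟩
  have hne : ∀ᶠ l in (V : Filter ℕ), 2 * ((t l : ℂ) * p l + s l) - 2 * p l ≠ 0 := by
    refine he.eventually_ne ?_
    intro h
    apply hfix
    have e : (2 : ℂ) * ((t₀ : ℂ) * p₀ + s₀ - p₀) = 0 := by rw [← h]; ring
    rcases mul_eq_zero.1 e with h' | h'
    · exact absurd h' two_ne_zero
    · exact sub_eq_zero.1 h'
  obtain ⟨l, hl1, hl2⟩ := (hfin.and hne).exists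
  exact hl2 hl1

end P2B
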